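import Pool.Agent.H822R6.SH.Defs
import Pool.Agent.H541R2.Count

/-!
# Counting the inputs accepted within `R` phases (`S_count`)
-/

set_option autoImplicit false

namespace Pool.Agent.H822R6.SH.TCOUNT

open Finset
open Pool.Agent.H822R6.SH
open Pool.Agent.H541R2 (gsign mu mu_nonneg IsCyl isCyl_univ cyl_card)

variable {N k : ℕ} {Q : Type}

theorem phase_indep (P : Prog N k Q) (D : ℕ) {g n : ℕ} (W : (Fin g → Fin n → Bool) → Fin N → Bool)
    (hW : Local D W) (r : Fin g) (c d : Q × (Fin k → Fin N)) (b b' : Fin g → Fin n → Bool)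
    (hbb : ∀ j, j ≠ r → b j = b' j) (h : Phase P D (W b) r c d) : Phase P D (W b') r c d := by
  unfold Phase at *
  refine Relation.ReflTransGen.mono ?_ _ _ h
  rintro c' d' ⟨h1, h2⟩
  refine ⟨h1, ?_⟩
  unfold Prog.Step at *
  have e : (fun i => W b' (c'.2 i)) = (fun i => W b (c'.2 i)) := by
    funext i
    exact (hW r b b' hbb (c'.2 i) (h1 i)).symm
  rw [e]
  exact h2

open Classical in
theorem accIn_card [Fintype Q] {g n : ℕ} (P : Prog N k Q) (D : ℕ)
    (W : (Fin (g + 1) → Fin n → Bool) → Fin N → Bool) (hW : Local D W) (σ : ℝ) (hσ : |σ| = 1) :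
    ∀ (R : ℕ) (c : Q × (Fin k → Fin N)) (S : Set (Fin (g + 1) → Fin n → Bool)), IsCyl S →
    (∀ b ∈ S, AccIn P D W R c b → gsign Finset.univ b = σ) →
    ((Finset.univ.filter (fun b => b ∈ S ∧ AccIn P D W R c b)).card : ℝ) ≤
      ((g + 1 : ℝ) * ((Fintype.card Q : ℝ) * (N : ℝ) ^ k)) ^ R *
        ((2 ^ n : ℝ) ^ (g + 1) * (mu g) ^ n) := by
  intro R
  induction R with
  | zero =>
    intro c S hS hb
    rw [pow_zero, one_mul]
    by_cases hc : c ∈ P.acc
    · have e : (Finset.univ.filter (fun b => b ∈ S ∧ AccIn P D W 0 c b)) =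
          Finset.univ.filter (fun b => b ∈ S) := by
        ext b; simp [AccIn, hc]
      rw [e]
      exact cyl_card hS σ hσ (fun b hbS => hb b hbS hc)
    · have e : (Finset.univ.filter (fun b => b ∈ S ∧ AccIn P D W 0 c b)) = ∅ := by
        ext b; simp [AccIn, hc]
      rw [e]
      have := mu_nonneg g
      simp only [Finset.card_empty, Nat.cast_zero]
      positivity
  | succ R ih =>
    intro c S hS hb
    obtain ⟨S', hS'⟩ : ∃ S' : Fin (g + 1) × (Q × (Fin k → Fin N)) →
        Set (Fin (g + 1) → Fin n → Bool),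
        ∀ x, S' x = S ∩ {b | Phase P D (W b) x.1 c x.2} := ⟨_, fun _ => rfl⟩
    obtain ⟨G, hG⟩ : ∃ G : Fin (g + 1) × (Q × (Fin k → Fin N)) →
        Finset (Fin (g + 1) → Fin n → Bool),
        ∀ x, G x = Finset.univ.filter (fun b => b ∈ S' x ∧ AccIn P D W R x.2 b) :=
      ⟨_, fun _ => rfl⟩
    have hsub : (Finset.univ.filter (fun b => b ∈ S ∧ AccIn P D W (R + 1) c b)) ⊆
        (Finset.univ : Finset (Fin (g + 1) × (Q × (Fin k → Fin N)))).biUnion G := by
      intro b hb'
      rw [Finset.mem_filter] at hb'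
      obtain ⟨_, hbS, r, d, hT, hacc⟩ := hb'
      rw [Finset.mem_biUnion]
      refine ⟨(r, d), Finset.mem_univ _, ?_⟩
      rw [hG, Finset.mem_filter]
      refine ⟨Finset.mem_univ _, ?_, hacc⟩
      rw [hS']
      exact ⟨hbS, hT⟩
    have h1 := (Finset.card_le_card hsub).trans Finset.card_biUnion_le
    have h2 : ∀ x ∈ (Finset.univ : Finset (Fin (g + 1) × (Q × (Fin k → Fin N)))),
        ((G x).card : ℝ) ≤
          ((g + 1 : ℝ) * ((Fintype.card Q : ℝ) * (N : ℝ) ^ k)) ^ R *
            ((2 ^ n : ℝ) ^ (g + 1) * (mu g) ^ n) := by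
      intro x _
      rw [hG]
      refine ih x.2 (S' x) ?_ ?_
      · rw [hS']
        apply hS.inter x.1
        intro b b' hbb hT
        exact phase_indep P D W hW x.1 c x.2 b b' hbb hT
      · intro b hbS hacc
        rw [hS'] at hbS
        exact hb b hbS.1 ⟨x.1, x.2, hbS.2, hacc⟩
    have h3 : ((Finset.univ.filter (fun b => b ∈ S ∧ AccIn P D W (R + 1) c b)).card : ℝ) ≤
        ∑ x ∈ (Finset.univ : Finset (Fin (g + 1) × (Q × (Fin k → Fin N)))), ((G x).card : ℝ) := by
      rw [← Nat.cast_sum]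
      exact Nat.cast_le.mpr h1
    refine h3.trans ((Finset.sum_le_sum h2).trans (le_of_eq ?_))
    rw [Finset.sum_const, nsmul_eq_mul, Finset.card_univ, Fintype.card_prod, Fintype.card_prod,
      Fintype.card_fun, Fintype.card_fin, Fintype.card_fin, Fintype.card_fin]
    push_cast
    ring

theorem COUNT : S_count := by
  intro N k g n D Q _ P W hW σ hσ R c hb
  classical
  have h := accIn_card P D W hW σ hσ R c Set.univ isCyl_univ (fun b _ hacc => hb b hacc)
  refine le_trans (le_of_eq ?_) h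
  congr 2
  ext b
  simp

end Pool.Agent.H822R6.SH.TCOUNT
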