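import Mathlib
import Pool.Agent.H822R6.SH.Defs

set_option autoImplicit false

namespace Pool.Agent.H822R6.SH.TFINAL

open Pool.Agent.H822R6.SH Pool.Agent.H541R2 Pool.Agent.H538R4.SP

theorem FINAL (hgen : S_gen) (hsem : S_sem) (hnm : S_names) (hpl : S_place) (htr : S_trans)
    (hloc : S_local) : S_final := by
  intro k
  obtain ⟨C, hC, n₀, hgen⟩ := hgen k
  obtain ⟨G, hG⟩ : ∃ G, G = 3 * k + 1 := ⟨_, rfl⟩
  have hG1 : 1 ≤ G := by omega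
  refine ⟨9 * G * (n₀ + 2) + ⌈288 * (G : ℝ) ^ 2 * C⌉₊, by positivity, ?_⟩
  intro M ℓ hDM hMl Q _ P hP
  have hM1 : 9 * G * (n₀ + 2) ≤ M := le_trans (Nat.le_add_right _ _) hDM
  obtain ⟨m, hm⟩ : ∃ m, m = M / G := ⟨_, rfl⟩
  obtain ⟨n, hn⟩ : ∃ n, n = m / 9 := ⟨_, rfl⟩
  have hm9 : 9 * (n₀ + 2) ≤ m := by
    rw [hm, Nat.le_div_iff_mul_le (by omega)]
    calc 9 * (n₀ + 2) * G = 9 * G * (n₀ + 2) := by ring
      _ ≤ M := hM1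
  have hn2 : n₀ + 2 ≤ n := by
    rw [hn, Nat.le_div_iff_mul_le (by omega)]
    omega
  have hnm9 : 9 * n ≤ m := by omega
  have hGm : G * m ≤ M := by rw [hm]; exact Nat.mul_div_le _ _
  have hMG : M < G * (m + 1) := by
    rw [hm]; exact Nat.lt_mul_div_succ _ (by omega)
  have hm18 : m ≤ 18 * n := by omega
  have hM2 : M ≤ 2 * G * m := by nlinarith
  have hnGM : 9 * n * G ≤ M := by nlinarith
  have hnames : 3 + n * (3 * G + 4) ≤ 2 ^ ℓ := by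
    refine le_trans ?_ (hnGM.trans hMl)
    have h2 : 2 ≤ n := by omega
    nlinarith [Nat.mul_le_mul h2 hG1]
  obtain ⟨nm, hinj⟩ := hnm G n ℓ hnames
  obtain ⟨f, hf⟩ := hpl G n m M hG1 (by omega) hnm9 hGm
  have hL := hloc G n m M ℓ nm f (by omega) hf
  have hD1 : 1 ≤ 5 * (ℓ + 1) * m := by
    have : 1 ≤ m := by omega
    nlinarith
  subst hG
  obtain ⟨b, hb, hT⟩ := hgen (M * (5 * (ℓ + 1))) n (5 * (ℓ + 1) * m) (by omega) hD1 Q P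
    (fun x => sys nm f x ∘ (pos (M := M) (ℓ := ℓ)).symm) hL (by
      intro b
      rw [hP (sys nm f b), htr _ _ _ _ nm f hinj hf.1 b, hsem])
  refine ⟨sys nm f b, ?_, ?_⟩
  · rw [htr _ _ _ _ nm f hinj hf.1 b, hsem]; exact hb
  intro T ρ hρ
  have h1 := hT T ρ hρ
  have hQ : (1 : ℝ) ≤ Fintype.card Q := by
    have : 0 < Fintype.card Q := Fintype.card_pos_iff.mpr ⟨P.start.1⟩
    exact_mod_cast this
  have hLQ : 0 ≤ Real.log (Fintype.card Q) := Real.log_nonneg hQ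
  obtain ⟨LQ, hLQe⟩ : ∃ LQ, LQ = Real.log (Fintype.card Q) := ⟨_, rfl⟩
  obtain ⟨L, hLe⟩ : ∃ L : ℝ, L = Real.log ((M : ℝ) * (ℓ + 1)) := ⟨_, rfl⟩
  have hMr : (18 : ℝ) ≤ M := by
    have : 18 ≤ M := by
      refine le_trans ?_ hM1
      nlinarith
    exact_mod_cast this
  have hl1 : (1 : ℝ) ≤ (ℓ : ℝ) + 1 := by
    have : (0 : ℝ) ≤ ℓ := by positivity
    linarith
  have hML : (18 : ℝ) ≤ (M : ℝ) * (ℓ + 1) := by nlinarith
  have hL1 : 1 ≤ L := by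
    rw [hLe, Real.le_log_iff_exp_le (by linarith)]
    have := Real.exp_one_lt_d9
    linarith
  have hlog5 : Real.log 5 ≤ 2 := by
    rw [Real.log_le_iff_le_exp (by norm_num)]
    have h := Real.exp_one_gt_d9
    have : Real.exp 2 = Real.exp 1 * Real.exp 1 := by rw [← Real.exp_add]; norm_num
    rw [this]
    nlinarith
  have hLN : Real.log ((M * (5 * (ℓ + 1)) : ℕ) : ℝ) ≤ 2 + L := by
    have e : (((M * (5 * (ℓ + 1)) : ℕ)) : ℝ) = 5 * ((M : ℝ) * (ℓ + 1)) := by push_cast; ring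
    rw [e, Real.log_mul (by norm_num) (by positivity), hLe]
    linarith
  rw [← hLQe] at h1 ⊢
  rw [← hLe]
  have hLQ' : 0 ≤ LQ := by rw [hLQe]; exact hLQ
  obtain ⟨X, hX⟩ : ∃ X, X = LQ + L := ⟨_, rfl⟩
  have hX0 : 0 ≤ X := by rw [hX]; linarith
  have h2 : LQ + Real.log ((M * (5 * (ℓ + 1)) : ℕ) : ℝ) + 1 ≤ 4 * X := by rw [hX]; linarith
  have hD'pos : (0 : ℝ) < ((5 * (ℓ + 1) * m : ℕ) : ℝ) := by exact_mod_cast hD1
  obtain ⟨D', hD'⟩ : ∃ D' : ℝ, D' = ((5 * (ℓ + 1) * m : ℕ) : ℝ) := ⟨_, rfl⟩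
  rw [← hD'] at h1 hD'pos
  have hD'e : D' = 5 * ((ℓ : ℝ) + 1) * m := by rw [hD']; push_cast; ring
  have hT0 : (0 : ℝ) ≤ (T : ℝ) / D' + 1 := by positivity
  have h3 : (n : ℝ) ≤ C * ((T : ℝ) / D' + 1) * (4 * X) :=
    h1.trans (mul_le_mul_of_nonneg_left h2 (by positivity))
  have h4 : D' * n ≤ C * (T + D') * (4 * X) := by
    have := mul_le_mul_of_nonneg_left h3 hD'pos.le
    have e : D' * (C * ((T : ℝ) / D' + 1) * (4 * X)) = C * (T + D') * (4 * X) := by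
      field_simp
    rwa [e] at this
  have hmM : (m : ℝ) ≤ M := by
    have : m ≤ M := by nlinarith
    exact_mod_cast this
  have hTM : (T : ℝ) + D' ≤ 5 * ((T : ℝ) + M * (ℓ + 1)) := by
    rw [hD'e]
    have h5 : ((ℓ : ℝ) + 1) * m ≤ (ℓ + 1) * M := mul_le_mul_of_nonneg_left hmM (by linarith)
    have h6 : (0 : ℝ) ≤ T := by positivity
    nlinarith
  obtain ⟨Y, hY⟩ : ∃ Y : ℝ, Y = (T : ℝ) + M * (ℓ + 1) := ⟨_, rfl⟩
  rw [← hY] at hTM ⊢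
  rw [← hX]
  have hY0 : 0 ≤ Y := by rw [hY]; positivity
  have h7 : ((ℓ : ℝ) + 1) * m * n ≤ 4 * C * Y * X := by
    have h8 : C * (T + D') * (4 * X) ≤ C * (5 * Y) * (4 * X) := by gcongr
    have h9 := h4.trans h8
    rw [hD'e] at h9
    nlinarith
  have h10 : (M : ℝ) ^ 2 ≤ 72 * (((3 * k + 1 : ℕ)) : ℝ) ^ 2 * (m * n) := by
    have a1 : (M : ℝ) ≤ 2 * ((3 * k + 1 : ℕ) : ℝ) * m := by exact_mod_cast hM2
    have a2 : (m : ℝ) ≤ 18 * n := by exact_mod_cast hm18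
    have a3 : (M : ℝ) ≤ 36 * ((3 * k + 1 : ℕ) : ℝ) * n := by
      calc (M : ℝ) ≤ 2 * ((3 * k + 1 : ℕ) : ℝ) * m := a1
        _ ≤ 2 * ((3 * k + 1 : ℕ) : ℝ) * (18 * n) := by gcongr
        _ = _ := by ring
    calc (M : ℝ) ^ 2 = M * M := by ring
      _ ≤ (2 * ((3 * k + 1 : ℕ) : ℝ) * m) * (36 * ((3 * k + 1 : ℕ) : ℝ) * n) := by gcongr
      _ = _ := by ring
  have h11 : 288 * (((3 * k + 1 : ℕ)) : ℝ) ^ 2 * C ≤
      ((9 * (3 * k + 1) * (n₀ + 2) + ⌈288 * (((3 * k + 1 : ℕ)) : ℝ) ^ 2 * C⌉₊ : ℕ) : ℝ) := by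
    have := Nat.le_ceil (288 * (((3 * k + 1 : ℕ)) : ℝ) ^ 2 * C)
    push_cast at this ⊢
    have h0 : (0 : ℝ) ≤ 9 * (3 * (k : ℝ) + 1) * (n₀ + 2) := by positivity
    linarith
  calc (M : ℝ) ^ 2 * (ℓ + 1) ≤ 72 * (((3 * k + 1 : ℕ)) : ℝ) ^ 2 * (m * n) * (ℓ + 1) := by gcongr
    _ = 72 * (((3 * k + 1 : ℕ)) : ℝ) ^ 2 * (((ℓ : ℝ) + 1) * m * n) := by ring
    _ ≤ 72 * (((3 * k + 1 : ℕ)) : ℝ) ^ 2 * (4 * C * Y * X) := by gcongr
    _ = (288 * (((3 * k + 1 : ℕ)) : ℝ) ^ 2 * C) * Y * X := by ring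
    _ ≤ _ := by gcongr

end Pool.Agent.H822R6.SH.TFINAL
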