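import Pool.Agent.H822R6.SH.Defs

set_option autoImplicit false

namespace Pool.Agent.H822R6.SH.TGEN

open Pool.Agent.H822R6.SH Pool.Agent.H541R2

theorem GEN (h1 : S_count) (h2 : S_runs) (h3 : S_sound) : S_gen := by
  classical
  intro k
  obtain ⟨μ', hμ'⟩ : ∃ μ' : ℝ, μ' = max (mu (3 * k)) (1 / 2) := ⟨_, rfl⟩
  have hμ'1 : μ' < 1 := by rw [hμ']; exact max_lt (mu_lt_one _) (by norm_num)
  have hμ'0 : 0 < μ' := by rw [hμ']; exact lt_of_lt_of_le (by norm_num) (le_max_right _ _)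
  obtain ⟨lam, hlam⟩ : ∃ lam : ℝ, lam = -Real.log μ' := ⟨_, rfl⟩
  have hlam0 : 0 < lam := by
    have := Real.log_neg hμ'0 hμ'1
    linarith
  obtain ⟨C2, hC2⟩ : ∃ C2 : ℝ, C2 = Real.log (2 * (((3 * k : ℕ) : ℝ) + 1)) + k + 1 := ⟨_, rfl⟩
  have hk0 : (0 : ℝ) ≤ k := Nat.cast_nonneg k
  have h3k : (0 : ℝ) ≤ ((3 * k : ℕ) : ℝ) := Nat.cast_nonneg _
  have hlg : 0 ≤ Real.log (2 * (((3 * k : ℕ) : ℝ) + 1)) := Real.log_nonneg (by linarith)
  have hC20 : 0 < C2 := by rw [hC2]; linarith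
  have hev : ∀ᶠ n : ℕ in Filter.atTop, (Real.sqrt μ') ^ n < 1 / 4 ∧ μ' ^ n < 1 / 2 := by
    have hs : Real.sqrt μ' < 1 := by
      rw [Real.sqrt_lt' one_pos]; simpa using hμ'1
    have t1 := tendsto_pow_atTop_nhds_zero_of_lt_one (Real.sqrt_nonneg μ') hs
    have t2 := tendsto_pow_atTop_nhds_zero_of_lt_one hμ'0.le hμ'1
    filter_upwards [t1.eventually (gt_mem_nhds (show (0:ℝ) < 1/4 by norm_num)),
      t2.eventually (gt_mem_nhds (show (0:ℝ) < 1/2 by norm_num))] with N a1 a2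
    exact ⟨a1, a2⟩
  obtain ⟨n₀, hn₀⟩ := Filter.eventually_atTop.1 hev
  refine ⟨2 * C2 / lam, by positivity, n₀, ?_⟩
  intro N n D hn hD Q _ P W hW hacc
  obtain ⟨hn1, hn2⟩ := hn₀ n hn
  have : Nonempty Q := ⟨P.start.1⟩
  have hcardQ : (1 : ℝ) ≤ Fintype.card Q := by exact_mod_cast Fintype.card_pos
  have hNk : (1 : ℝ) ≤ (N : ℝ) ^ k := by
    rcases Nat.eq_zero_or_pos k with hk | hk
    · rw [hk, pow_zero]
    · have hN : 0 < N := lt_of_le_of_lt (Nat.zero_le _) (P.start.2 ⟨0, hk⟩).2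
      exact one_le_pow₀ (by exact_mod_cast hN)
  have hlogQ : 0 ≤ Real.log (Fintype.card Q) := Real.log_nonneg hcardQ
  have hlogN : 0 ≤ Real.log N := Real.log_natCast_nonneg N
  obtain ⟨κ, hκ⟩ : ∃ κ : ℝ, κ = 2 * (((3 * k : ℕ) : ℝ) + 1) * ((Fintype.card Q : ℝ) * (N : ℝ) ^ k) :=
    ⟨_, rfl⟩
  have hQN : (1 : ℝ) ≤ (Fintype.card Q : ℝ) * (N : ℝ) ^ k := one_le_mul_of_one_le_of_one_le hcardQ hNk
  have hκK : (((3 * k : ℕ) : ℝ) + 1) * ((Fintype.card Q : ℝ) * (N : ℝ) ^ k) ≤ κ := by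
    rw [hκ]
    have : 0 ≤ (((3 * k : ℕ) : ℝ) + 1) * ((Fintype.card Q : ℝ) * (N : ℝ) ^ k) := by positivity
    nlinarith
  have hκ2 : 2 ≤ κ := by
    rw [hκ]
    nlinarith
  have hlogκ : 0 < Real.log κ := Real.log_pos (by linarith)
  obtain ⟨A, hA⟩ : ∃ A : ℝ, A = Real.log (Fintype.card Q) + Real.log N + 1 := ⟨_, rfl⟩
  have hA1 : 1 ≤ A := by rw [hA]; linarith
  have hlogκle : Real.log κ ≤ C2 * A := by
    have hN0 : (N : ℝ) ^ k ≠ 0 := (lt_of_lt_of_le one_pos hNk).ne'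
    have hc0 : (Fintype.card Q : ℝ) ≠ 0 := (lt_of_lt_of_le one_pos hcardQ).ne'
    have h20 : 2 * (((3 * k : ℕ) : ℝ) + 1) ≠ 0 := by positivity
    rw [hκ, hC2, Real.log_mul h20 (mul_ne_zero hc0 hN0), Real.log_mul hc0 hN0, Real.log_pow, hA]
    generalize Real.log (2 * (((3 * k : ℕ) : ℝ) + 1)) = l1 at *
    generalize Real.log (Fintype.card Q) = l2 at *
    generalize Real.log (N : ℝ) = l3 at *
    have e1 : 0 ≤ l1 * (l2 + l3) := by positivity
    have e2 : 0 ≤ (k : ℝ) * (l2 + 1) := by positivity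
    have e3 : (l1 + (k : ℝ) + 1) * (l2 + l3 + 1) =
      l1 + (l2 + k * l3) + (l1 * (l2 + l3) + k * (l2 + 1) + l3 + 1) := by ring
    rw [e3]
    linarith
  -- number of phases
  obtain ⟨R, hR1, hR2⟩ : ∃ R : ℕ, (R : ℝ) * Real.log κ ≤ n * lam / 2 ∧
      (n * lam / 2 : ℝ) ≤ (R + 1) * Real.log κ := by
    refine ⟨⌊(n * lam / 2) / Real.log κ⌋₊, ?_, ?_⟩
    · have := Nat.floor_le (a := (n * lam / 2) / Real.log κ) (by positivity)
      rwa [le_div_iff₀ hlogκ] at this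
    · have := (Nat.lt_floor_add_one ((n * lam / 2) / Real.log κ)).le
      rwa [div_le_iff₀ hlogκ] at this
  -- a good matrix exists
  have hgood : ∃ b : Fin (3 * k + 1) → Fin n → Bool, gsign Finset.univ b = -1 ∧
      ¬ AccIn P D W R P.start b := by
    by_contra hcon0
    have hcon : ∀ b : Fin (3 * k + 1) → Fin n → Bool, gsign Finset.univ b = -1 →
        AccIn P D W R P.start b := by
      intro b hb
      by_contra hh
      exact hcon0 ⟨b, hb, hh⟩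
    have h5 := h1 N k (3 * k) n D Q P W hW (-1) (by norm_num) R P.start (by
      intro b hb
      exact (hacc b).1 (h3 N k (3 * k + 1) n D R Q P W b hb))
    have h4 : (2 ^ n : ℝ) ^ (3 * k + 1) * (1 - (mu (3 * k)) ^ n) / 2 ≤
        ((Finset.univ.filter (fun b : Fin (3 * k + 1) → Fin n → Bool =>
          AccIn P D W R P.start b)).card : ℝ) := by
      refine (sign_card (3 * k) n (-1) (Or.inr rfl)).trans ?_
      apply Nat.cast_le.mpr
      apply Finset.card_le_card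
      intro b hb
      rw [Finset.mem_filter] at hb ⊢
      exact ⟨Finset.mem_univ _, hcon b hb.2⟩
    have hmu0 := mu_nonneg (3 * k)
    have h6 : (mu (3 * k)) ^ n ≤ μ' ^ n := pow_le_pow_left₀ hmu0 (by rw [hμ']; exact le_max_left _ _) n
    have h7 : ((((3 * k : ℕ) : ℝ) + 1) * ((Fintype.card Q : ℝ) * (N : ℝ) ^ k)) ^ R ≤
        Real.exp (n * lam / 2) := by
      calc ((((3 * k : ℕ) : ℝ) + 1) * ((Fintype.card Q : ℝ) * (N : ℝ) ^ k)) ^ R ≤ κ ^ R :=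
            pow_le_pow_left₀ (by positivity) hκK R
        _ = Real.exp (R * Real.log κ) := by
          rw [← Real.log_pow, Real.exp_log (by positivity)]
        _ ≤ _ := Real.exp_le_exp.mpr hR1
    have h8 : Real.exp (n * lam / 2) * μ' ^ n = (Real.sqrt μ') ^ n := by
      have e1 : Real.sqrt μ' = Real.exp (-lam / 2) := by
        rw [Real.sqrt_eq_iff_mul_self_eq hμ'0.le (Real.exp_pos _).le, ← Real.exp_add]
        have : -lam / 2 + -lam / 2 = Real.log μ' := by rw [hlam]; ring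
        rw [this, Real.exp_log hμ'0]
      have e2 : μ' = Real.exp (-lam) := by rw [hlam, neg_neg, Real.exp_log hμ'0]
      rw [e1, ← Real.exp_nat_mul]
      nth_rewrite 1 [e2]
      rw [← Real.exp_nat_mul, ← Real.exp_add]
      congr 1
      ring
    obtain ⟨Pw, hP⟩ : ∃ Pw : ℝ, Pw = (2 ^ n : ℝ) ^ (3 * k + 1) := ⟨_, rfl⟩
    have hP0 : 0 < Pw := by rw [hP]; positivity
    rw [← hP] at h4 h5
    have h9 : ((((3 * k : ℕ) : ℝ) + 1) * ((Fintype.card Q : ℝ) * (N : ℝ) ^ k)) ^ R *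
        (Pw * (mu (3 * k)) ^ n) ≤ Pw * (Real.sqrt μ') ^ n := by
      calc ((((3 * k : ℕ) : ℝ) + 1) * ((Fintype.card Q : ℝ) * (N : ℝ) ^ k)) ^ R * (Pw * (mu (3 * k)) ^ n)
          ≤ Real.exp (n * lam / 2) * (Pw * μ' ^ n) := by gcongr
        _ = Pw * (Real.exp (n * lam / 2) * μ' ^ n) := by ring
        _ = _ := by rw [h8]
    refine absurd (h4.trans ?_) (not_le.mpr (num_aux hP0 (lt_of_le_of_lt h6 hn2) hn1))
    convert h5.trans h9
  obtain ⟨b, hb, hnacc⟩ := hgood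
  refine ⟨b, hb, ?_⟩
  intro T ρ hρ
  have hRT : R + 1 ≤ T / D + 1 := by
    by_contra hlt
    rw [not_le] at hlt
    exact hnacc (h2 N k n D Q P W hD b T ρ hρ R (by omega))
  have hRT' : (R : ℝ) + 1 ≤ (T : ℝ) / D + 1 := by
    have e1 : (R : ℝ) + 1 ≤ ((T / D : ℕ) : ℝ) + 1 := by exact_mod_cast hRT
    have e2 : ((T / D : ℕ) : ℝ) ≤ (T : ℝ) / D := Nat.cast_div_le
    linarith
  rw [← hA]
  have hT0 : (0 : ℝ) ≤ (T : ℝ) / D + 1 := by positivity
  calc (n : ℝ) = 2 / lam * (n * lam / 2) := by field_simp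
    _ ≤ 2 / lam * ((R + 1) * Real.log κ) := by gcongr
    _ ≤ 2 / lam * (((T : ℝ) / D + 1) * (C2 * A)) := by gcongr
    _ = 2 * C2 / lam * ((T : ℝ) / D + 1) * A := by ring

end Pool.Agent.H822R6.SH.TGEN
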