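import Pool.Agent.H822R6.SH.Defs

set_option autoImplicit false

namespace Pool.Agent.H822R6.SH.TLOCAL

open Pool.Agent.H822R6.SH Pool.Agent.H541R2

theorem tri_eq {g n : ℕ} (x x' : Fin g → Fin n → Bool) (r : Rl g n)
    (h : ∀ j i, r = .var j i → x j i = x' j i) : tri x r = tri x' r := by
  cases r with
  | var j i =>
    show (Nd.lit j i (x j i), _, _) = (Nd.lit j i (x' j i), _, _)
    rw [h j i rfl]
  | con0 i => rfl
  | conS i j => rfl
  | negR i j => rfl
  | par0 => rfl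
  | parN i b => rfl
  | parY i b => rfl

theorem LOCAL : S_local := by
  intro g n m M ℓ nm f hnm hf r x x' hx p hp
  show sys nm f x (pos.symm p) = sys nm f x' (pos.symm p)
  obtain ⟨q, rfl⟩ : ∃ q, p = pos q := ⟨pos.symm p, by simp⟩
  rw [Equiv.symm_apply_apply]
  have hval : ((pos q : Fin (M * (5 * (ℓ + 1)))) : ℕ) =
      ((finProdFinEquiv q.2 : Fin (5 * (ℓ + 1))) : ℕ) + 5 * (ℓ + 1) * (q.1 : ℕ) := rfl
  have hlt : ((finProdFinEquiv q.2 : Fin (5 * (ℓ + 1))) : ℕ) < 5 * (ℓ + 1) :=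
    (finProdFinEquiv q.2).isLt
  have hdiv : ((pos q : Fin (M * (5 * (ℓ + 1)))) : ℕ) / (5 * (ℓ + 1) * m) = (q.1 : ℕ) / m := by
    rw [← Nat.div_div_eq_div_mul, hval, Nat.add_mul_div_left _ _ (by omega),
      Nat.div_eq_of_lt hlt, Nat.zero_add]
  rw [hdiv] at hp
  have htri : tri x (f q.1) = tri x' (f q.1) := by
    apply tri_eq
    intro j i hji
    have hc := hf.2 q.1 j i hji
    have hi : (i : ℕ) < m := lt_of_lt_of_le i.isLt hnm
    have hj : (q.1 : ℕ) / m = j := by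
      rw [hc, Nat.add_comm, Nat.add_mul_div_right _ _ (by omega), Nat.div_eq_of_lt hi,
        Nat.zero_add]
    have hne : j ≠ r := by
      rintro rfl
      exact hp hj
    rw [hx j hne]
  unfold sys recd
  rw [htri]

end Pool.Agent.H822R6.SH.TLOCAL
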