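import Pool.Agent.H822R6.SH.Defs

set_option autoImplicit false

namespace Pool.Agent.H822R6.SH.TNAMES

open Pool.Agent.H822R6.SH

/-- The code of a node. -/
def code {g n : ℕ} : Nd g n →
    Unit ⊕ (Fin g × Fin n × Bool) ⊕ (Fin n × Fin (g + 1)) ⊕ Fin n ⊕ (Fin (n + 1) × Bool)
  | .top => Sum.inl ()
  | .lit j i b => Sum.inr (Sum.inl (j, i, b))
  | .con i j => Sum.inr (Sum.inr (Sum.inl (i, j)))
  | .neg i => Sum.inr (Sum.inr (Sum.inr (Sum.inl i)))
  | .par i b => Sum.inr (Sum.inr (Sum.inr (Sum.inr (i, b))))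

theorem code_injective {g n : ℕ} : Function.Injective (code (g := g) (n := n)) := by
  intro a b h
  cases a <;> cases b <;> simp_all [code]

theorem NAMES : S_names := by
  intro g n ℓ h
  have h1 : Fintype.card (Nd g n) ≤ 3 + n * (3 * g + 4) := by
    refine (Fintype.card_le_of_injective _ (code_injective (g := g) (n := n))).trans ?_
    simp only [Fintype.card_sum, Fintype.card_prod, Fintype.card_fin, Fintype.card_bool,
      Fintype.card_unit]
    apply le_of_eq
    ring
  have h2 : Fintype.card (Fin (ℓ + 1) → Bool) = 2 ^ (ℓ + 1) := by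
    simp
  have h3 : Fintype.card (Nd g n) ≤ Fintype.card (Fin (ℓ + 1) → Bool) := by
    rw [h2, pow_succ]
    omega
  obtain ⟨f⟩ := Function.Embedding.nonempty_of_card_le h3
  exact ⟨f, f.injective⟩

end Pool.Agent.H822R6.SH.TNAMES
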