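import Pool.Agent.H822R6.SH.Defs

/-! PLACE (helper21): placement of the rules in the records. -/

set_option autoImplicit false

namespace Pool.Agent.H822R6.SH.TPLACE

open Pool.Agent.H822R6.SH Pool.Agent.H541R2

/-- the rule carried by the place `q` of row `j` -/
def cell {g n : ℕ} (j : Fin g) (q : ℕ) : Rl g n :=
  if h : q < n then .var j ⟨q, h⟩
  else if h1 : q < 2 * n then .conS ⟨q - n, by omega⟩ j
  else if h2 : q < 3 * n then .negR ⟨q - 2 * n, by omega⟩ j
  else if h3 : q < 4 * n then .con0 ⟨q - 3 * n, by omega⟩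
  else if h4 : q < 5 * n then .parN ⟨q - 4 * n, by omega⟩ false
  else if h5 : q < 6 * n then .parN ⟨q - 5 * n, by omega⟩ true
  else if h6 : q < 7 * n then .parY ⟨q - 6 * n, by omega⟩ false
  else if h7 : q < 8 * n then .parY ⟨q - 7 * n, by omega⟩ true
  else .par0

theorem cell_var {g n : ℕ} (j : Fin g) (q : ℕ) (j' : Fin g) (i : Fin n)
    (h : cell (n := n) j q = .var j' i) : j' = j ∧ (i : ℕ) = q := by
  unfold cell at h
  split_ifs at h
  injection h with h1 h2
  exact ⟨h1.symm, by rw [← h2]⟩

theorem cell_surj {g n m : ℕ} (hg : 1 ≤ g) (hn : 1 ≤ n) (hm : 9 * n ≤ m) (r : Rl g n) :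
    ∃ (j : Fin g) (q : ℕ), q < m ∧ cell j q = r := by
  cases r with
  | var j i =>
    refine ⟨j, i, by have := i.2; omega, ?_⟩
    unfold cell
    rw [dif_pos i.2]
  | con0 i =>
    have hi := i.2
    refine ⟨⟨0, hg⟩, 3 * n + i, by omega, ?_⟩
    unfold cell
    rw [dif_neg (by omega), dif_neg (by omega), dif_neg (by omega), dif_pos (by omega)]
    congr 1
    apply Fin.ext
    simp
  | conS i j =>
    have hi := i.2
    refine ⟨j, n + i, by omega, ?_⟩
    unfold cell
    rw [dif_neg (by omega), dif_pos (by omega)]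
    congr 1
    apply Fin.ext
    simp
  | negR i j =>
    have hi := i.2
    refine ⟨j, 2 * n + i, by omega, ?_⟩
    unfold cell
    rw [dif_neg (by omega), dif_neg (by omega), dif_pos (by omega)]
    congr 1
    apply Fin.ext
    simp
  | par0 =>
    refine ⟨⟨0, hg⟩, 8 * n, by omega, ?_⟩
    unfold cell
    rw [dif_neg (by omega), dif_neg (by omega), dif_neg (by omega), dif_neg (by omega),
      dif_neg (by omega), dif_neg (by omega), dif_neg (by omega), dif_neg (by omega)]
  | parN i b =>
    have hi := i.2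
    cases b with
    | false =>
      refine ⟨⟨0, hg⟩, 4 * n + i, by omega, ?_⟩
      unfold cell
      rw [dif_neg (by omega), dif_neg (by omega), dif_neg (by omega), dif_neg (by omega),
        dif_pos (by omega)]
      congr 1
      apply Fin.ext
      simp
    | true =>
      refine ⟨⟨0, hg⟩, 5 * n + i, by omega, ?_⟩
      unfold cell
      rw [dif_neg (by omega), dif_neg (by omega), dif_neg (by omega), dif_neg (by omega),
        dif_neg (by omega), dif_pos (by omega)]
      congr 1
      apply Fin.ext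
      simp
  | parY i b =>
    have hi := i.2
    cases b with
    | false =>
      refine ⟨⟨0, hg⟩, 6 * n + i, by omega, ?_⟩
      unfold cell
      rw [dif_neg (by omega), dif_neg (by omega), dif_neg (by omega), dif_neg (by omega),
        dif_neg (by omega), dif_neg (by omega), dif_pos (by omega)]
      congr 1
      apply Fin.ext
      simp
    | true =>
      refine ⟨⟨0, hg⟩, 7 * n + i, by omega, ?_⟩
      unfold cell
      rw [dif_neg (by omega), dif_neg (by omega), dif_neg (by omega), dif_neg (by omega),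
        dif_neg (by omega), dif_neg (by omega), dif_neg (by omega), dif_pos (by omega)]
      congr 1
      apply Fin.ext
      simp

theorem PLACE : S_place := by
  intro g n m M hg hn hm hM
  have hm0 : 0 < m := by omega
  refine ⟨fun c => if h : (c : ℕ) / m < g then cell ⟨(c : ℕ) / m, h⟩ ((c : ℕ) % m) else .par0,
    ?_, ?_⟩
  · intro r
    obtain ⟨j, q, hq, hr⟩ := cell_surj hg hn hm r
    have hj : (j : ℕ) + 1 ≤ g := j.2
    have hlt : (j : ℕ) * m + q < M := by
      have h1 : ((j : ℕ) + 1) * m ≤ g * m := Nat.mul_le_mul_right m hj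
      have h2 : ((j : ℕ) + 1) * m = (j : ℕ) * m + m := by ring
      omega
    refine ⟨⟨(j : ℕ) * m + q, hlt⟩, ?_⟩
    have hdiv : ((j : ℕ) * m + q) / m = j := by
      rw [add_comm, Nat.add_mul_div_right _ _ hm0, Nat.div_eq_of_lt hq, zero_add]
    have hmod : ((j : ℕ) * m + q) % m = q := by
      rw [add_comm, Nat.add_mul_mod_self_right, Nat.mod_eq_of_lt hq]
    have hlt2 : ((j : ℕ) * m + q) / m < g := by rw [hdiv]; exact j.2
    change (if h : ((j : ℕ) * m + q) / m < g then
      cell ⟨((j : ℕ) * m + q) / m, h⟩ (((j : ℕ) * m + q) % m) else Rl.par0) = r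
    rw [dif_pos hlt2, hmod]
    have hj' : (⟨((j : ℕ) * m + q) / m, hlt2⟩ : Fin g) = j := Fin.ext hdiv
    rw [hj', hr]
  · intro c j i h
    change (if h : (c : ℕ) / m < g then cell ⟨(c : ℕ) / m, h⟩ ((c : ℕ) % m) else Rl.par0) =
      .var j i at h
    by_cases hc : (c : ℕ) / m < g
    · rw [dif_pos hc] at h
      obtain ⟨h1, h2⟩ := cell_var _ _ _ _ h
      rw [h2, h1]
      change (c : ℕ) = (c : ℕ) / m * m + (c : ℕ) % m
      rw [mul_comm]
      exact (Nat.div_add_mod _ _).symm
    · rw [dif_neg hc] at h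
      cases h

end Pool.Agent.H822R6.SH.TPLACE
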