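import Pool.Agent.H822R6.SH.Defs

set_option autoImplicit false

namespace Pool.Agent.H822R6.SH.TRUNS

open Pool.Agent.H822R6.SH Pool.Agent.H541R2

theorem slow_run {N k : ℕ} {Q : Type} (P : Prog N k Q) (w : Fin N → Bool) (T : ℕ)
    (ρ : ℕ → Q × (Fin k → Fin N)) (h : ∀ t < T, P.Step w (ρ t) (ρ (t + 1))) (t m : ℕ)
    (hm : t + m ≤ T) (i : Fin k) :
    ((ρ (t + m)).2 i : ℕ) ≤ (ρ t).2 i + m ∧ ((ρ t).2 i : ℕ) ≤ (ρ (t + m)).2 i + m := by
  induction m with
  | zero => simp
  | succ m ih =>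
    have h1 := ih (by omega)
    have h2 := P.slow _ _ _ (h (t + m) (by omega)) i
    rw [show t + (m + 1) = t + m + 1 by omega]
    omega

theorem div_near {D p q : ℕ} (hD : 1 ≤ D) (h1 : q ≤ p + (D - 1)) : q / D ≤ p / D + 1 := by
  calc q / D ≤ (p + D) / D := Nat.div_le_div_right (by omega)
    _ = p / D + 1 := Nat.add_div_right p hD

theorem exists_block {k : ℕ} (D : ℕ) (p : Fin k → ℕ) :
    ∃ r : Fin (3 * k + 1), ∀ i, p i / D - 1 ≠ r ∧ p i / D ≠ r ∧ p i / D + 1 ≠ r := by
  classical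
  set bad : Finset ℕ := (Finset.univ : Finset (Fin k)).biUnion
    (fun i => {p i / D - 1, p i / D, p i / D + 1}) with hbad
  have hc : bad.card < (Finset.range (3 * k + 1)).card := by
    rw [Finset.card_range]
    refine Nat.lt_succ_of_le ?_
    refine (Finset.card_biUnion_le).trans ?_
    refine (Finset.sum_le_card_nsmul _ _ 3 (fun i _ => Finset.card_le_three)).trans ?_
    rw [Finset.card_univ, Fintype.card_fin, smul_eq_mul, mul_comm]
  obtain ⟨r, hr, hr2⟩ := Finset.exists_mem_notMem_of_card_lt_card hc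
  rw [Finset.mem_range] at hr
  refine ⟨⟨r, hr⟩, fun i => ?_⟩
  have h3 : ∀ x ∈ ({p i / D - 1, p i / D, p i / D + 1} : Finset ℕ), x ≠ r := by
    intro x hx hxr
    apply hr2
    rw [hbad, Finset.mem_biUnion]
    exact ⟨i, Finset.mem_univ _, hxr ▸ hx⟩
  exact ⟨h3 _ (by simp), h3 _ (by simp), h3 _ (by simp)⟩

theorem short_phase {N k : ℕ} {Q : Type} (P : Prog N k Q) (D : ℕ) (hD : 1 ≤ D)
    (w : Fin N → Bool) (T : ℕ) (ρ : ℕ → Q × (Fin k → Fin N))
    (h : ∀ t < T, P.Step w (ρ t) (ρ (t + 1))) (t m : ℕ) (hm : t + m ≤ T) (hmD : m ≤ D) :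
    ∃ r : Fin (3 * k + 1), Phase P D w r (ρ t) (ρ (t + m)) := by
  obtain ⟨r, hr⟩ := exists_block D (fun i => ((ρ t).2 i : ℕ))
  refine ⟨r, ?_⟩
  have key : ∀ j, j ≤ m → Phase P D w r (ρ t) (ρ (t + j)) := by
    intro j
    induction j with
    | zero => intro _; exact Relation.ReflTransGen.refl
    | succ j ih =>
      intro hj
      refine Relation.ReflTransGen.tail (ih (by omega)) ⟨?_, ?_⟩
      · intro i
        have h1 := slow_run P w T ρ h t j (by omega) i
        have h2 := div_near (D := D) (p := (ρ t).2 i) (q := (ρ (t + j)).2 i) hD (by omega)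
        have h3 := div_near (D := D) (p := (ρ (t + j)).2 i) (q := (ρ t).2 i) hD (by omega)
        have h4 := hr i
        omega
      · exact h (t + j) (by omega)
  exact key m le_rfl

theorem RUNS : S_runs := by
  intro N k n D Q P W hD b T ρ hrun R hR
  obtain ⟨h0, hstep, hacc⟩ := hrun
  have key : ∀ R t : ℕ, t ≤ T → T - t ≤ R * D → AccIn P D W R (ρ t) b := by
    intro R
    induction R with
    | zero =>
      intro t ht h
      have : t = T := by omega
      rw [this]
      exact hacc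
    | succ R ih =>
      intro t ht h
      rw [Nat.succ_mul] at h
      obtain ⟨r, hr⟩ := short_phase P D hD (W b) T ρ hstep t (min D (T - t)) (by omega)
        (min_le_left _ _)
      exact ⟨r, _, hr, ih _ (by omega) (by omega)⟩
  rw [← h0]
  refine key R 0 (Nat.zero_le _) ?_
  have : T < R * D := (Nat.div_lt_iff_lt_mul hD).1 hR
  omega

end Pool.Agent.H822R6.SH.TRUNS
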