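import Pool.Agent.H822R6.SH.Defs

/-!
# SEM: meaning of the path systems
-/

set_option autoImplicit false

namespace Pool.Agent.H822R6.SH.TSEM

open Pool.Agent.H822R6.SH Pool.Agent.H541R2

/-- number of all-one columns among the first `m` -/
def cnt {g n : ℕ} (x : Fin g → Fin n → Bool) (m : ℕ) : ℕ :=
  (Finset.univ.filter fun i' : Fin n => i'.val < m ∧ ∀ j, x j i' = true).card

/-- the meaning of the nodes -/
def Good {g n : ℕ} (x : Fin g → Fin n → Bool) : Nd g n → Prop
  | .top => True
  | .lit j i b => x j i = b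
  | .con i j => ∀ j' : Fin g, j'.val < j.val → x j' i = true
  | .neg i => ∃ j, x j i = false
  | .par i b => decide (Odd (cnt x i.val)) = b

theorem cnt_zero {g n : ℕ} (x : Fin g → Fin n → Bool) : cnt x 0 = 0 := by
  unfold cnt
  rw [Finset.card_eq_zero, Finset.filter_eq_empty_iff]
  intro i _ h
  exact absurd h.1 (Nat.not_lt_zero _)

theorem cnt_yes {g n : ℕ} (x : Fin g → Fin n → Bool) (i : Fin n) (h : ∀ j, x j i = true) :
    cnt x (i.val + 1) = cnt x i.val + 1 := by
  unfold cnt
  have h1 : (Finset.univ.filter fun i' : Fin n => i'.val < i.val + 1 ∧ ∀ j, x j i' = true) =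
      insert i (Finset.univ.filter fun i' : Fin n => i'.val < i.val ∧ ∀ j, x j i' = true) := by
    ext i'
    simp only [Finset.mem_filter, Finset.mem_univ, true_and, Finset.mem_insert]
    constructor
    · rintro ⟨h2, h3⟩
      rcases Nat.lt_succ_iff_lt_or_eq.1 h2 with h4 | h4
      · exact Or.inr ⟨h4, h3⟩
      · exact Or.inl (Fin.ext h4)
    · rintro (rfl | ⟨h2, h3⟩)
      · exact ⟨Nat.lt_succ_self _, h⟩
      · exact ⟨Nat.lt_succ_of_lt h2, h3⟩
  rw [h1, Finset.card_insert_of_notMem]
  intro h2
  exact absurd (Finset.mem_filter.1 h2).2.1 (lt_irrefl _)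

theorem cnt_no {g n : ℕ} (x : Fin g → Fin n → Bool) (i : Fin n) (h : ∃ j, x j i = false) :
    cnt x (i.val + 1) = cnt x i.val := by
  unfold cnt
  congr 1
  ext i'
  simp only [Finset.mem_filter, Finset.mem_univ, true_and]
  constructor
  · rintro ⟨h2, h3⟩
    rcases Nat.lt_succ_iff_lt_or_eq.1 h2 with h4 | h4
    · exact ⟨h4, h3⟩
    · exfalso
      obtain ⟨j, hj⟩ := h
      have h5 : i' = i := Fin.ext h4
      rw [← h5, h3 j] at hj
      exact Bool.noConfusion hj
  · rintro ⟨h2, h3⟩
    exact ⟨Nat.lt_succ_of_lt h2, h3⟩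

theorem dec_succ (m : ℕ) : decide (Odd (m + 1)) = !decide (Odd m) := by
  rw [Bool.eq_iff_iff]
  simp only [decide_eq_true_eq, Bool.not_eq_true', decide_eq_false_iff_not]
  exact Nat.odd_add_one

theorem good_of_adm {g n : ℕ} (x : Fin g → Fin n → Bool) (v : Nd g n) (h : AdmN x v) :
    Good x v := by
  induction h with
  | top => trivial
  | step r h1 h2 ih1 ih2 =>
    cases r with
    | var j i => exact rfl
    | con0 i =>
      intro j' hj'
      exact absurd hj' (Nat.not_lt_zero _)
    | conS i j =>
      intro j' hj'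
      have e1 : ∀ j' : Fin g, j'.val < j.val → x j' i = true := ih1
      have e2 : x j i = true := ih2
      have hj2 : j'.val < j.val + 1 := hj'
      rcases Nat.lt_succ_iff_lt_or_eq.1 hj2 with h4 | h4
      · exact e1 j' h4
      · rw [Fin.ext h4]
        exact e2
    | negR i j => exact ⟨j, ih1⟩
    | par0 =>
      show decide (Odd (cnt x 0)) = false
      rw [cnt_zero]
      decide
    | parN i b =>
      have e1 : decide (Odd (cnt x i.val)) = b := ih1
      have e2 : ∃ j, x j i = false := ih2
      show decide (Odd (cnt x (i.val + 1))) = b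
      rw [cnt_no x i e2]
      exact e1
    | parY i b =>
      have e1 : decide (Odd (cnt x i.val)) = b := ih1
      have e2 : ∀ j' : Fin g, j'.val < g → x j' i = true := ih2
      show decide (Odd (cnt x (i.val + 1))) = !b
      rw [cnt_yes x i fun j => e2 j j.isLt, dec_succ, e1]

theorem adm_lit {g n : ℕ} (x : Fin g → Fin n → Bool) (j : Fin g) (i : Fin n) (b : Bool)
    (h : x j i = b) : AdmN x (.lit j i b) := by
  rw [← h]
  exact AdmN.step (.var j i) AdmN.top AdmN.top

theorem adm_con {g n : ℕ} (x : Fin g → Fin n → Bool) (i : Fin n) (j : Fin (g + 1)) :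
    (∀ j' : Fin g, j'.val < j.val → x j' i = true) → AdmN x (.con i j) := by
  induction j using Fin.induction with
  | zero =>
    intro _
    exact AdmN.step (.con0 i) AdmN.top AdmN.top
  | succ j ih =>
    intro h
    refine AdmN.step (.conS i j) (ih fun j' hj' => h j' ?_) (adm_lit x j i true (h j ?_))
    · exact Nat.lt_succ_of_lt hj'
    · exact Nat.lt_succ_self _

theorem adm_neg {g n : ℕ} (x : Fin g → Fin n → Bool) (i : Fin n) (h : ∃ j, x j i = false) :
    AdmN x (.neg i) := by
  obtain ⟨j, hj⟩ := h
  exact AdmN.step (.negR i j) (adm_lit x j i false hj) AdmN.top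

theorem adm_par {g n : ℕ} (x : Fin g → Fin n → Bool) (i : Fin (n + 1)) :
    AdmN x (.par i (decide (Odd (cnt x i.val)))) := by
  induction i using Fin.induction with
  | zero =>
    have e : decide (Odd (cnt x ((0 : Fin (n + 1)) : ℕ))) = false := by
      rw [Fin.val_zero, cnt_zero]
      decide
    rw [e]
    exact AdmN.step .par0 AdmN.top AdmN.top
  | succ i ih =>
    by_cases h : ∀ j, x j i = true
    · have e : decide (Odd (cnt x (i.succ : ℕ))) = !decide (Odd (cnt x (i.castSucc : ℕ))) := by
        rw [Fin.val_succ, Fin.val_castSucc, cnt_yes x i h, dec_succ]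
      rw [e]
      exact AdmN.step (.parY i _) ih (adm_con x i (Fin.last g) fun j' _ => h j')
    · have h' : ∃ j, x j i = false := by
        push Not at h
        obtain ⟨j, hj⟩ := h
        exact ⟨j, by simpa using hj⟩
      have e : decide (Odd (cnt x (i.succ : ℕ))) = decide (Odd (cnt x (i.castSucc : ℕ))) := by
        rw [Fin.val_succ, Fin.val_castSucc, cnt_no x i h']
      rw [e]
      exact AdmN.step (.parN i _) ih (adm_neg x i h')

theorem gs {g n : ℕ} (x : Fin g → Fin n → Bool) : gsign Finset.univ x = (-1) ^ cnt x n := by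
  unfold gsign cnt
  rw [Finset.prod_ite, Finset.prod_const, Finset.prod_const_one, mul_one]
  congr 2
  ext i
  simp only [Finset.mem_filter, Finset.mem_univ, true_and]
  exact ⟨fun h => ⟨i.isLt, h⟩, fun h => h.2⟩

/-- meaning of the path systems -/
theorem SEM : S_sem := by
  intro g n x
  rw [gs, neg_one_pow_eq_neg_one_iff_odd (by norm_num)]
  constructor
  · intro h
    have h1 : decide (Odd (cnt x n)) = true := good_of_adm x _ h
    exact of_decide_eq_true h1
  · intro h
    have h1 := adm_par x (Fin.last n)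
    rw [Fin.val_last, decide_eq_true h] at h1
    exact h1

end Pool.Agent.H822R6.SH.TSEM
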