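import Pool.Agent.H822R6.SH.Defs

set_option autoImplicit false

namespace Pool.Agent.H822R6.SH.TSOUND

open Pool.Agent.H822R6.SH Pool.Agent.H541R2

theorem reach {N k g n : ℕ} {Q : Type} (D : ℕ) (P : Prog N k Q)
    (W : (Fin g → Fin n → Bool) → Fin N → Bool) (b : Fin g → Fin n → Bool) :
    ∀ (R : ℕ) (c : Q × (Fin k → Fin N)), AccIn P D W R c b →
      ∃ d ∈ P.acc, Relation.ReflTransGen (P.Step (W b)) c d := by
  intro R
  induction R with
  | zero =>
    intro c h
    exact ⟨c, h, Relation.ReflTransGen.refl⟩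
  | succ R ih =>
    rintro c ⟨r, d, hph, h⟩
    obtain ⟨e, he, hde⟩ := ih d h
    refine ⟨e, he, Relation.ReflTransGen.trans ?_ hde⟩
    unfold Phase at hph
    clear h hde ih
    induction hph with
    | refl => exact Relation.ReflTransGen.refl
    | tail _ h2 ih2 => exact Relation.ReflTransGen.tail ih2 h2.2

theorem accepts_of_reach {N k : ℕ} {Q : Type} (P : Prog N k Q) (w : Fin N → Bool)
    {d : Q × (Fin k → Fin N)} (h : Relation.ReflTransGen (P.Step w) P.start d) (hd : d ∈ P.acc) :
    P.Accepts w := by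
  have key : ∃ (T : ℕ) (ρ : ℕ → Q × (Fin k → Fin N)), ρ 0 = P.start ∧
      (∀ t < T, P.Step w (ρ t) (ρ (t + 1))) ∧ ρ T = d := by
    clear hd
    induction h with
    | refl => exact ⟨0, fun _ => P.start, rfl, by intro t ht; omega, rfl⟩
    | @tail d e _ h2 ih =>
      obtain ⟨T, ρ, h3, h4, h5⟩ := ih
      refine ⟨T + 1, fun t => if t ≤ T then ρ t else e, by simp [h3], ?_, by simp⟩
      intro t ht
      by_cases htT : t = T
      · subst htT
        simp only [le_refl, if_true]
        rw [if_neg (by omega), h5]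
        exact h2
      · have h6 : t ≤ T := by omega
        have h7 : t + 1 ≤ T := by omega
        simp only [h6, h7, if_true]
        exact h4 t (by omega)
  obtain ⟨T, ρ, h3, h4, h5⟩ := key
  exact ⟨T, ρ, h3, h4, by rw [h5]; exact hd⟩

theorem SOUND : S_sound := by
  intro N k g n D R Q P W b h
  obtain ⟨d, hd, hr⟩ := reach D P W b R P.start h
  exact accepts_of_reach P (W b) hr hd

end Pool.Agent.H822R6.SH.TSOUND
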