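import Pool.Agent.H822R6.SH.Defs

/-!
# The path system of a matrix: admissible nodes (helper55)
-/

set_option autoImplicit false

namespace Pool.Agent.H822R6.SH.TTRANS

open Pool.Agent.H538R4.SP Pool.Agent.H822R6.SH Pool.Agent.H541R2

theorem r0 {g n : ℕ} (x : Fin g → Fin n → Bool) (r : Rl g n) : recd x r 0 = (tri x r).1 := rfl

theorem r1 {g n : ℕ} (x : Fin g → Fin n → Bool) (r : Rl g n) : recd x r 1 = (tri x r).2.1 := rfl

theorem r2 {g n : ℕ} (x : Fin g → Fin n → Bool) (r : Rl g n) : recd x r 2 = (tri x r).2.2 := rfl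

theorem r3 {g n : ℕ} (x : Fin g → Fin n → Bool) (r : Rl g n) :
    recd x r 3 = .par (Fin.last n) true := rfl

theorem r4 {g n : ℕ} (x : Fin g → Fin n → Bool) (r : Rl g n) : recd x r 4 = .top := rfl

theorem TRANS : S_trans := by
  intro g n M ℓ nm f hnm hf x
  have hname : ∀ (c : Fin M) (s : Fin 5), name (sys nm f x) c s = nm (recd x (f c) s) :=
    fun _ _ => rfl
  constructor
  · rintro ⟨c, hc⟩
    have h1 : ∀ v, Adm (sys nm f x) v → ∀ u, v = nm u → AdmN x u := by
      intro v hv
      induction hv with
      | terminal c =>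
        intro u hu
        rw [hname, r4] at hu
        rw [← hnm hu]
        exact AdmN.top
      | step c h1 h2 ih1 ih2 =>
        intro u hu
        rw [hname, r0] at hu
        rw [← hnm hu]
        refine AdmN.step (f c) (ih1 _ ?_) (ih2 _ ?_)
        · rw [hname, r1]
        · rw [hname, r2]
    refine h1 _ hc _ ?_
    rw [hname, r3]
  · intro h
    have h2 : ∀ u, AdmN x u → Adm (sys nm f x) (nm u) := by
      intro u hu
      induction hu with
      | top =>
        obtain ⟨c, hc⟩ := hf Rl.par0
        have h3 := Adm.terminal (w := sys nm f x) c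
        rw [hname, r4] at h3
        exact h3
      | step r h1 h2 ih1 ih2 =>
        obtain ⟨c, hc⟩ := hf r
        have h3 : Adm (sys nm f x) (name (sys nm f x) c 0) := by
          apply Adm.step c
          · rw [hname, r1, hc]
            exact ih1
          · rw [hname, r2, hc]
            exact ih2
        rw [hname, r0, hc] at h3
        exact h3
    obtain ⟨c, hc⟩ := hf Rl.par0
    refine ⟨c, ?_⟩
    rw [hname, r3]
    exact h2 _ h

end Pool.Agent.H822R6.SH.TTRANS
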